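import Mathlib

/-!
# The local search allocation on a finite graph
-/

set_option autoImplicit false

open scoped ENNReal

namespace Pool.Agent.Q211.LS

variable {V : Type} [Fintype V] [DecidableEq V]

/-- The neighbours of `v` of minimum load, when some neighbour of `v` has a load smaller than
that of `v`; the empty set when `v` is a local minimum. -/
def better (G : SimpleGraph V) [DecidableRel G.Adj] (x : V → ℕ) (v : V) : Finset V :=
  Finset.univ.filter fun u => G.Adj v u ∧ x u < x v ∧ ∀ w, G.Adj v w → x u ≤ x w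

theorem better_nonempty_iff (G : SimpleGraph V) [DecidableRel G.Adj] (x : V → ℕ) (v : V) :
    (better G x v).Nonempty ↔ ∃ u, G.Adj v u ∧ x u < x v := by
  constructor
  · rintro ⟨u, hu⟩
    unfold better at hu
    rw [Finset.mem_filter] at hu
    exact ⟨u, hu.2.1, hu.2.2.1⟩
  · rintro ⟨u, hu, hx⟩
    obtain ⟨w, hw, hmin⟩ := Finset.exists_min_image (Finset.univ.filter fun u => G.Adj v u) x
      ⟨u, Finset.mem_filter.2 ⟨Finset.mem_univ _, hu⟩⟩
    rw [Finset.mem_filter] at hw
    refine ⟨w, Finset.mem_filter.2 ⟨Finset.mem_univ _, hw.2, ?_, fun z hz => ?_⟩⟩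
    · exact lt_of_le_of_lt (hmin u (Finset.mem_filter.2 ⟨Finset.mem_univ _, hu⟩)) hx
    · exact hmin z (Finset.mem_filter.2 ⟨Finset.mem_univ _, hz⟩)

/-- The law of the vertex at which a ball at `v` is placed, given the frozen loads `x`; the
first argument is a bound for the number of moves (the load decreases at each move, so that the
load of the starting vertex is enough). -/
noncomputable def place (G : SimpleGraph V) [DecidableRel G.Adj] (x : V → ℕ) : ℕ → V → PMF V
  | 0, v => PMF.pure v
  | k + 1, v => if h : (better G x v).Nonempty then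
      (PMF.uniformOfFinset (better G x v) h).bind (place G x k) else PMF.pure v

/-- The loads `x` after a ball is added at `v`. -/
def add (x : V → ℕ) (v : V) : V → ℕ := Function.update x v (x v + 1)

/-- The law of the loads after one more ball, given the loads `x`. -/
noncomputable def step [Nonempty V] (G : SimpleGraph V) [DecidableRel G.Adj] (x : V → ℕ) :
    PMF (V → ℕ) :=
  (PMF.uniformOfFintype V).bind fun u => (place G x (x u) u).bind fun v => PMF.pure (add x v)

/-- The law of the loads `X^{(m)}` after `m` balls. -/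
noncomputable def alloc [Nonempty V] (G : SimpleGraph V) [DecidableRel G.Adj] :
    ℕ → PMF (V → ℕ)
  | 0 => PMF.pure fun _ => 0
  | m + 1 => (alloc G m).bind (step G)

/-- The maximum load. -/
def maxLoad (x : V → ℕ) : ℕ := Finset.univ.sup x

/-- `P (X_max^{(m)}(G) ≥ ℓ)`. -/
noncomputable def tail [Nonempty V] (G : SimpleGraph V) [DecidableRel G.Adj] (m ℓ : ℕ) : ℝ≥0∞ :=
  (alloc G m).toOuterMeasure {x | ℓ ≤ maxLoad x}

/-- If the number of allowed moves is at least the load, the ball ends at a local minimum. -/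
theorem place_local_min (G : SimpleGraph V) [DecidableRel G.Adj] (x : V → ℕ) (k : ℕ) (v : V)
    (hk : x v ≤ k) (u : V) (hu : u ∈ (place G x k v).support) :
    ¬ ∃ w, G.Adj u w ∧ x w < x u := by
  induction k generalizing v with
  | zero =>
    simp only [place, PMF.support_pure, Set.mem_singleton_iff] at hu
    subst hu
    rintro ⟨w, _, hw⟩
    omega
  | succ k ih =>
    unfold place at hu
    split_ifs at hu with h
    · rw [PMF.mem_support_bind_iff] at hu
      obtain ⟨z, hz, hu⟩ := hu
      rw [PMF.mem_support_uniformOfFinset_iff] at hz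
      unfold better at hz
      rw [Finset.mem_filter] at hz
      exact ih z (by omega) hu
    · simp only [PMF.support_pure, Set.mem_singleton_iff] at hu
      subst hu
      rwa [better_nonempty_iff] at h

/-! ### Expectations -/

/-- Expectation of a function under a `PMF`. -/
noncomputable def E {α : Type} (p : PMF α) (g : α → ℝ≥0∞) : ℝ≥0∞ := ∑' y, p y * g y

theorem E_pure {α : Type} (a : α) (g : α → ℝ≥0∞) : E (PMF.pure a) g = g a := by
  classical
  unfold E
  rw [tsum_eq_single a]
  · simp
  · intro b hb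
    simp [PMF.pure_apply, hb]

theorem E_bind {α β : Type} (p : PMF α) (f : α → PMF β) (g : β → ℝ≥0∞) :
    E (p.bind f) g = E p fun x => E (f x) g := by
  unfold E
  simp only [PMF.bind_apply]
  calc ∑' y, (∑' x, p x * f x y) * g y = ∑' y, ∑' x, p x * f x y * g y := by
        refine tsum_congr fun y => ?_
        rw [ENNReal.tsum_mul_right]
    _ = ∑' x, ∑' y, p x * f x y * g y := ENNReal.tsum_comm
    _ = ∑' x, p x * ∑' y, f x y * g y := by
        refine tsum_congr fun x => ?_
        rw [← ENNReal.tsum_mul_left]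
        exact tsum_congr fun y => by rw [mul_assoc]

theorem E_uniform {α : Type} [Fintype α] [DecidableEq α] (s : Finset α) (hs : s.Nonempty)
    (g : α → ℝ≥0∞) :
    E (PMF.uniformOfFinset s hs) g = (∑ u ∈ s, g u) / s.card := by
  unfold E
  rw [tsum_fintype]
  simp only [PMF.uniformOfFinset_apply, ite_mul, zero_mul]
  rw [← Finset.sum_filter, div_eq_mul_inv, Finset.sum_mul]
  have : Finset.univ.filter (fun a => a ∈ s) = s := by ext; simp
  rw [this]
  exact Finset.sum_congr rfl fun u _ => mul_comm _ _

/-! ### The computable version -/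

/-- Expectation over the final vertex. -/
def wQ (G : SimpleGraph V) [DecidableRel G.Adj] (x : V → ℕ) (f : V → ℚ) : ℕ → V → ℚ
  | 0, v => f v
  | k + 1, v => if (better G x v).Nonempty then
      (∑ u ∈ better G x v, wQ G x f k u) / (better G x v).card else f v

/-- Expectation over one step. -/
def stepQ (G : SimpleGraph V) [DecidableRel G.Adj] (g : (V → ℕ) → ℚ) (x : V → ℕ) : ℚ :=
  (∑ u : V, wQ G x (fun v => g (add x v)) (x u) u) / (Fintype.card V)

/-- The indicator of `ℓ ≤ max load`. -/
def ind (ℓ : ℕ) (x : V → ℕ) : ℚ := if ℓ ≤ maxLoad x then 1 else 0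

theorem wQ_nonneg (G : SimpleGraph V) [DecidableRel G.Adj] (x : V → ℕ) (f : V → ℚ)
    (hf : ∀ v, 0 ≤ f v) (k : ℕ) (v : V) : 0 ≤ wQ G x f k v := by
  induction k generalizing v with
  | zero => exact hf v
  | succ k ih =>
    unfold wQ
    split_ifs
    · exact div_nonneg (Finset.sum_nonneg fun u _ => ih u) (Nat.cast_nonneg _)
    · exact hf v

theorem stepQ_nonneg (G : SimpleGraph V) [DecidableRel G.Adj] (g : (V → ℕ) → ℚ)
    (hg : ∀ v, 0 ≤ g v) (x : V → ℕ) : 0 ≤ stepQ G g x :=
  div_nonneg (Finset.sum_nonneg fun u _ => wQ_nonneg G x _ (fun _ => hg _) _ u)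
    (Nat.cast_nonneg _)

/-- Cast. -/
noncomputable def c (q : ℚ) : ℝ≥0∞ := ENNReal.ofReal (q : ℝ)

theorem c_sum_div {ι : Type} (s : Finset ι) (f : ι → ℚ) (hf : ∀ i, 0 ≤ f i) (n : ℕ)
    (hn : n ≠ 0) : (∑ i ∈ s, c (f i)) / n = c ((∑ i ∈ s, f i) / n) := by
  unfold c
  rw [← ENNReal.ofReal_sum_of_nonneg (fun i _ => by exact_mod_cast hf i),
    ← ENNReal.ofReal_natCast n, ← ENNReal.ofReal_div_of_pos (by positivity)]
  push_cast
  rfl

theorem E_place (G : SimpleGraph V) [DecidableRel G.Adj] (x : V → ℕ) (f : V → ℚ)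
    (hf : ∀ v, 0 ≤ f v) (k : ℕ) (v : V) :
    E (place G x k v) (fun u => c (f u)) = c (wQ G x f k v) := by
  induction k generalizing v with
  | zero => exact E_pure _ _
  | succ k ih =>
    unfold place wQ
    split_ifs with h
    · rw [E_bind, E_uniform]
      simp only [ih]
      exact c_sum_div _ _ (fun u => wQ_nonneg G x f hf k u) _ (Finset.card_pos.2 h).ne'
    · exact E_pure _ _

theorem E_step [Nonempty V] (G : SimpleGraph V) [DecidableRel G.Adj] (x : V → ℕ)
    (g : (V → ℕ) → ℚ) (hg : ∀ y, 0 ≤ g y) :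
    E (step G x) (fun y => c (g y)) = c (stepQ G g x) := by
  unfold step stepQ
  rw [E_bind]
  have h1 : ∀ u, E ((place G x (x u) u).bind fun v => PMF.pure (add x v)) (fun y => c (g y)) =
      c (wQ G x (fun v => g (add x v)) (x u) u) := by
    intro u
    rw [E_bind]
    simp only [E_pure]
    exact E_place G x (fun v => g (add x v)) (fun _ => hg _) _ _
  simp only [h1]
  unfold PMF.uniformOfFintype
  rw [E_uniform]
  exact c_sum_div _ _ (fun u => wQ_nonneg G x _ (fun _ => hg _) _ u) _ (Fintype.card_ne_zero)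

theorem E_alloc [Nonempty V] (G : SimpleGraph V) [DecidableRel G.Adj] (m : ℕ)
    (g : (V → ℕ) → ℚ) (hg : ∀ y, 0 ≤ g y) :
    E (alloc G m) (fun y => c (g y)) = c ((stepQ G)^[m] g fun _ => 0) := by
  induction m generalizing g with
  | zero => exact E_pure _ _
  | succ m ih =>
    rw [Function.iterate_succ_apply]
    unfold alloc
    rw [E_bind]
    simp only [E_step G _ g hg]
    exact ih (stepQ G g) (stepQ_nonneg G g hg)

theorem tail_eq [Nonempty V] (G : SimpleGraph V) [DecidableRel G.Adj] (m ℓ : ℕ) :
    tail G m ℓ = c ((stepQ G)^[m] (ind ℓ) fun _ => 0) := by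
  rw [← E_alloc G m (ind ℓ) (fun y => by unfold ind; split_ifs <;> norm_num)]
  unfold tail E
  rw [PMF.toOuterMeasure_apply]
  refine tsum_congr fun x => ?_
  unfold ind c
  by_cases h : ℓ ≤ maxLoad x
  · rw [Set.indicator_of_mem (by exact h)]
    simp [h]
  · rw [Set.indicator_of_notMem (by exact h)]
    simp [h]

end Pool.Agent.Q211.LS
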